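import Pool.Agent.Lib.helper11.ETRGeoC

namespace Pool.Agent.Results.MP_8c8e41_lc.Col6

open Pool.Agent.Cx

/-- groups of at most `k` variables, two different groups sharing at most one variable -/
def Groups (k : ℕ) (L : List (List ℕ)) : Prop :=
  (∀ G ∈ L, G.toFinset.card ≤ k) ∧
    ∀ G ∈ L, ∀ H ∈ L, G.toFinset ≠ H.toFinset → (G.toFinset ∩ H.toFinset).card ≤ 1

/-- the positive atoms given by the groups and the listed negative atoms hold for some points -/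
def Yes (L : List (List ℕ)) (R : List (ℕ × ℕ × ℕ)) : Prop :=
  ∃ q : ℕ → ℝ × ℝ, (∀ G ∈ L, ∀ a ∈ G, ∀ b ∈ G, ∀ c ∈ G, Collinear ℝ {q a, q b, q c}) ∧
    ∀ t ∈ R, ¬ Collinear ℝ {q t.1, q t.2.1, q t.2.2}

open Classical in
theorem result (k : ℕ) (hk : 6 ≤ k) :
    ERHard (Lang fun I : List (List ℕ) × List (ℕ × ℕ × ℕ) => Groups k I.1 ∧ Yes I.1 I.2) := by
  obtain ⟨g, hg, h⟩ := rh_aff
  let r : ℕ × List (List ℕ) → List (List ℕ) × List (ℕ × ℕ × ℕ) := fun p =>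
    (p.2, (List.range p.1 ×ˢ List.range p.1 ×ˢ List.range p.1).filter fun t =>
      decide (t.1 ≠ t.2.1 ∧ t.1 ≠ t.2.2 ∧ t.2.1 ≠ t.2.2 ∧ ¬ Blk p.2 t.1 t.2.1 t.2.2))
  have hr : PT r := PT.id.snd.pair (PT.filter (PP.decide (by fun_prop)) (by fun_prop))
  refine RH.erHard ⟨fun s => r (g s), hr.comp hg, fun s => (h s).2.trans ?_⟩
  obtain ⟨⟨h1, h2, h3, h4⟩, -⟩ := h s
  beta_reduce
  generalize g s = p at *
  obtain ⟨N, B⟩ := p
  refine Iff.trans ?_ (and_iff_right ⟨fun G hG => (G.toFinset_card_le.trans (h3 G hG).1).trans hk,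
    fun G hG H hH e => Finset.card_le_one.2 fun a ha b hb => by_contra fun ab => e ?_⟩).symm
  · simp only [r, Yes, List.mem_filter, decide_eq_true_eq, Prod.forall, List.mem_product,
      List.mem_range]
    refine exists_congr fun q => ⟨fun H => ⟨fun G hG a ha b hb c hc => ?_,
      fun a b c ⟨⟨ha, hb, hc⟩, ab, ac, bc, e⟩ => (H a ha b hb c hc ab ac bc).1.mt e⟩,
      fun H a ha b hb c hc ab ac bc => ⟨fun e => by_contra fun e' =>
        H.2 a b c ⟨⟨ha, hb, hc⟩, ab, ac, bc, e'⟩ e, fun ⟨β, hβ, h1, h2, h3⟩ => H.1 β hβ a h1 b h2 c h3⟩⟩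
    by_cases ab : a = b
    · simp [ab, collinear_pair]
    by_cases ac : a = c
    · simp [ac, Set.insert_comm, collinear_pair]
    by_cases bc : b = c
    · simp [bc, collinear_pair]
    exact (H a ((h3 G hG).2 a ha) b ((h3 G hG).2 b hb) c ((h3 G hG).2 c hc) ab ac bc).2
      ⟨G, hG, ha, hb, hc⟩
  · simp only [Finset.mem_inter, List.mem_toFinset] at ha hb
    rw [h2 G hG H hH a ha.1 b hb.1 ab ha.2 hb.2]

end Pool.Agent.Results.MP_8c8e41_lc.Col6
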